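import Mathlib
import Pool.Agent.U792.QF.Fin

/-!
# Conjugate solutions of Fermat's equation over all quadratic fields

Let `p ≥ 5` be prime and `x ^ p + x' ^ p = z ^ p` with rational `z ≠ 0` and conjugate `x`, `x' ≠ 0` in a
quadratic field. After multiplication by an integer `x` is an algebraic integer and `z` an integer. Let
`X = x + x'` and `N = x x'`, and let `a` be the greatest common divisor of `X ^ 2` and `N`, the norm of the
ideal `(x, x')`; so `|N| / a` is the norm of `x / (x, x')`. Write `|N| / a = d e` where no prime factor of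
`d` is `1` modulo `p`. If `x ^ 2 + x x' + x' ^ 2 ≠ 0` (that is, if the solution is nontrivial) then

* `|X| max (|x|, |x'|) ^ p ≤ a ^ ((p + 1)/2) e ^ p` if the field is real;
* `(d e) ^ ((p + 1)/2) ≤ (4 e) ^ p` if the field is imaginary.

So the part `e` of the norm which is composed of primes that are `1` modulo `p` is large: at least
`(|N| / a) ^ (1/2 + 1/(2 p)) / 4` in the imaginary case, and at least the larger conjugate divided by the
square root of `a` in the real case. Solutions in which two of the variables are conjugate are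
the only possible exceptions in `PrimeDivisors` (all of `x`, `y`, `z` have prime divisors of norm `1`
modulo `p`); nothing was known about the size of such divisors in any case.

Proof. Let `A = X ^ 2 / a`, `B = N / a` and let `r / s` be `z / X` in lowest terms. Then
`(x ^ p + x' ^ p)/(x + x')` is up to a power of `a` a binary form `H` of degree `k = (p - 1)/2` in `A`, `B`.
The numbers `A ^ k` and `H (A, B)` are `s ^ p` and `r ^ p`, or `p s ^ p` and `p r ^ p`, and `H (A, B)` is
`A ^ k` modulo `B`. The order of the unit group modulo `d` is prime to `p` except for the power of `p` in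
`d`, for which Cauchy's congruence `p B ∣ A (H - A ^ k)` helps. So `r ≡ s` modulo `d` and `d ≤ |r - s|`
(`r = s` only for trivial solutions, as rational zeros of Cauchy's polynomial are roots of unity). In the
real case `r / s` is near to `1`, in the imaginary case `r` and `s` are small.
-/

set_option autoImplicit false

namespace Pool.Agent.Results.MP_50a406_nt.ConjugateSolutions

theorem result (p : ℕ) (hp : p.Prime) (hp5 : 5 ≤ p) (x y : ℂ) (X N z : ℤ) (hX : x + y = X)
    (hN : x * y = N) (hN0 : N ≠ 0) (hz : z ≠ 0) (hnt : x ^ 2 + x * y + y ^ 2 ≠ 0)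
    (h : x ^ p + y ^ p = (z : ℂ) ^ p)
    (d e : ℕ) (hde : N.natAbs = Int.gcd (X ^ 2) N * (d * e))
    (hd : ∀ l : ℕ, l.Prime → l ∣ d → ¬ l ≡ 1 [MOD p]) :
    (x.im = 0 → |(X : ℝ)| * max ‖x‖ ‖y‖ ^ p ≤
      (Int.gcd (X ^ 2) N : ℝ) ^ ((p + 1) / 2) * (e : ℝ) ^ p) ∧
    (x.im ≠ 0 → ((d * e : ℕ) : ℝ) ^ ((p + 1) / 2) ≤ (4 * e : ℝ) ^ p) :=
  Pool.Agent.U792.QF.final hp hp5 hX hN hN0 hz hnt h hde hd

end Pool.Agent.Results.MP_50a406_nt.ConjugateSolutions
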