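import Pool.Agent.U549.FW.Quad

/-!
# The theorem of Furtwängler over quadratic fields

Let `K` be a quadratic field, `p ≥ 5` a prime, `n` a multiple of `p`, and `x ^ n + y ^ n = z ^ n` with
nonzero `x`, `y`, `z` in `K`. Let `q` be a prime number, `q ≠ p`, for which `q ^ (p - 1)` is not `1`
modulo `p ^ 2`. There is no condition on the Bernoulli numbers, on the class number and the units of
`K`, and no assumption of a first case. We prove:

(1) If all primes of `K` above `q` divide `x` (that is, divide it to a higher power than `y` and `z`),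
    then all primes above `p` divide `x`; and the same for `y` and for `z`.
(2) Suppose that every prime of `K` above `q` has norm at most four (as for `q = 2`, and for `q = 3`
    if it is not inert) or divides one of `x`, `y`, `z` and has a norm which is not `1` modulo `p`.
    Then either the valuations of `x`, `y`, `z` are equal at all primes above `p` (the first case), or
    they are not all equal at any prime above `p` or above `q`, and the sums of the local degrees of
    the primes above `q` which divide `x`, or `y`, or `z`, are the same as for `p`.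
(3) If `r` is another such prime number, then these sums are the same for `q` and for `r`, and so are
    the sums of the local degrees of the primes at which the valuations are equal; this is true in the
    first case, too.

For instance, if `2 ^ (p - 1)` is not `1` modulo `p ^ 2`, then there is no solution for which the
valuations are equal at exactly one of two primes above `p`; and if they are not equal (for example
if two ramifies in `K`, when the starting theorem `WieferichQuadratic` excludes the first case), and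
`p` or `2` does not split in `K`, then all primes above `2 p` divide the same one of `x`, `y`, `z`.
Over the rational numbers (1) is a theorem of Furtwängler.

Proof. The general theorem `FurtwaenglerTheorem` (under the problem on asymptotic Fermat) gives the
value `(D_q (x) - D_q (y)) - (D_p (x) - D_p (y))` for the sum of `(X - Y) / Z` over the embeddings
which belong to the primes above `p` with equal valuations, where `D_l` denotes the sums of the local
degrees. There are at most two of them. If there is none, (2) follows; if there is one, its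
coordinates satisfy two of three such equations and `X + Y + Z = 0`, and small integers would be
divisible by `p`; if there are two and all primes above `q` divide `x`, then the sums of the `Y / Z`
and of the `Z / Y` are both `- 2`, and `X = 0`.
-/

set_option autoImplicit false

namespace Pool.Agent.Results.MP_50a406_nt.FurtwaenglerQuadratic

open NumberField IsDedekindDomain

/-- `q` is a prime number other than `p`, and `q ^ (p - 1)` is not `1` modulo `p ^ 2` -/
def Aux (p q : ℕ) : Prop := q.Prime ∧ q ≠ p ∧ ¬ p ^ 2 ∣ q ^ (p - 1) - 1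

section

variable {K : Type} [Field K] [NumberField K]

/-- the local degree of `v` over `l`, the product of the ramification index and the residue
degree -/
noncomputable def locDeg (l : ℕ) (v : HeightOneSpectrum (𝓞 K)) : ℕ :=
  Ideal.ramificationIdx' (Ideal.span {(l : ℤ)}) v.asIdeal *
    Ideal.inertiaDeg' (Ideal.span {(l : ℤ)}) v.asIdeal

/-- `x`, `y` and `z` have the same valuation at `v` -/
def EqualAt (v : HeightOneSpectrum (𝓞 K)) (x y z : K) : Prop :=
  v.valuation K x = v.valuation K y ∧ v.valuation K y = v.valuation K z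

/-- `v` divides `x` to a higher power than `y` and `z` (its valuation, in multiplicative notation, is
smaller) -/
def Divides (v : HeightOneSpectrum (𝓞 K)) (x y z : K) : Prop :=
  v.valuation K x < v.valuation K y ∧ v.valuation K x < v.valuation K z

/-- the sum of the local degrees of the primes above `l` which divide `x` to a higher power than `y`
and `z` -/
noncomputable def divDeg (l : ℕ) (x y z : K) : ℕ :=
  ∑ᶠ (v : HeightOneSpectrum (𝓞 K)) (_ : ((l : ℕ) : 𝓞 K) ∈ v.asIdeal ∧ Divides v x y z), locDeg l v

/-- the sum of the local degrees of the primes above `l` at which `x`, `y`, `z` have the same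
valuation -/
noncomputable def eqDeg (l : ℕ) (x y z : K) : ℕ :=
  ∑ᶠ (v : HeightOneSpectrum (𝓞 K)) (_ : ((l : ℕ) : 𝓞 K) ∈ v.asIdeal ∧ EqualAt v x y z), locDeg l v

/-- all primes above `l` divide `x` to a higher power than `y` and `z` -/
def Full (l : ℕ) (x y z : K) : Prop :=
  ∀ v : HeightOneSpectrum (𝓞 K), ((l : ℕ) : 𝓞 K) ∈ v.asIdeal → Divides v x y z

/-- `q` is two, or every prime above `q` has norm at most four or divides one of `x`, `y`, `z` (the
valuations are not equal) and has a norm which is not `1` modulo `p` -/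
def Fine (p q : ℕ) (x y z : K) : Prop :=
  q = 2 ∨ ∀ v : HeightOneSpectrum (𝓞 K), ((q : ℕ) : 𝓞 K) ∈ v.asIdeal →
    Ideal.absNorm v.asIdeal ≤ 4 ∨ (¬ EqualAt v x y z ∧ ¬ p ∣ Ideal.absNorm v.asIdeal - 1)

theorem lt_pow {k : ℕ} (hk : k ≠ 0) (v : HeightOneSpectrum (𝓞 K)) (x y : K) :
    v.valuation K (x ^ k) < v.valuation K (y ^ k) ↔ v.valuation K x < v.valuation K y := by
  rw [map_pow, map_pow]
  exact pow_lt_pow_iff_left₀ zero_le zero_le hk

theorem eq_pow {k : ℕ} (hk : k ≠ 0) (v : HeightOneSpectrum (𝓞 K)) (x y : K) :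
    v.valuation K (x ^ k) = v.valuation K (y ^ k) ↔ v.valuation K x = v.valuation K y := by
  rw [map_pow, map_pow]
  exact pow_left_inj₀ zero_le zero_le hk

theorem div_pow {k : ℕ} (hk : k ≠ 0) (v : HeightOneSpectrum (𝓞 K)) (x y z : K) :
    (Divides v (x ^ k) (y ^ k) (-z ^ k) ↔ Divides v x y z) ∧
    (Divides v (y ^ k) (-z ^ k) (x ^ k) ↔ Divides v y z x) ∧
    (Divides v (-z ^ k) (x ^ k) (y ^ k) ↔ Divides v z x y) ∧
    (EqualAt v (x ^ k) (y ^ k) (-z ^ k) ↔ EqualAt v x y z) := by
  unfold Divides EqualAt
  simp only [Valuation.map_neg, lt_pow hk, eq_pow hk]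
  exact ⟨trivial, trivial, trivial, trivial⟩

theorem Fine.good (hK : Module.finrank ℚ K = 2) {p q : ℕ} (hp5 : 5 ≤ p) {a b c : K}
    (h : Fine p q a b c) : U549.FW.Good p q a b c := by
  have small : (∀ v : HeightOneSpectrum (𝓞 K), ((q : ℕ) : 𝓞 K) ∈ v.asIdeal →
      Ideal.absNorm v.asIdeal ≤ 4 ∨ (¬ EqualAt v a b c ∧ ¬ p ∣ Ideal.absNorm v.asIdeal - 1)) →
      U549.FW.Good p q a b c := by
    intro h v hv
    rcases h v hv with h1 | h1
    · refine ⟨fun _ hd => ?_, fun _ => Or.inl h1⟩
      have hfin : Finite (𝓞 K ⧸ v.asIdeal) :=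
        Ideal.finiteQuotientOfFreeOfNeBot v.asIdeal v.ne_bot
      have hnt : Nontrivial (𝓞 K ⧸ v.asIdeal) :=
        Ideal.Quotient.nontrivial_iff.2 v.isPrime.ne_top
      have hck : Nat.card (𝓞 K ⧸ v.asIdeal) = Ideal.absNorm v.asIdeal := rfl
      have h2 : 1 < Ideal.absNorm v.asIdeal := by
        rw [← hck]
        exact Finite.one_lt_card
      have := Nat.le_of_dvd (by omega) hd
      omega
    · exact ⟨fun _ => h1.2, fun h2 => absurd h2 h1.1⟩
  rcases h with h | h
  · subst h
    exact small fun v hv => Or.inl (U549.FW.quad_two hK v hv)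
  · exact small h

end

theorem result (K : Type) [Field K] [NumberField K] (hK : Module.finrank ℚ K = 2)
    (p n : ℕ) (hp : p.Prime) (h5 : 5 ≤ p) (hn : p ∣ n)
    (x y z : K) (h : x ^ n + y ^ n = z ^ n) (hx : x ≠ 0) (hy : y ≠ 0) (hz : z ≠ 0)
    (q : ℕ) (hq : Aux p q) :
    -- (1)
    ((Full q x y z → Full p x y z) ∧ (Full q y z x → Full p y z x) ∧
      (Full q z x y → Full p z x y)) ∧
    (Fine p q x y z →
      -- (2)
      ((∀ v : HeightOneSpectrum (𝓞 K), ((p : ℕ) : 𝓞 K) ∈ v.asIdeal → EqualAt v x y z) ∨
        ((∀ v : HeightOneSpectrum (𝓞 K), ((p : ℕ) : 𝓞 K) ∈ v.asIdeal ∨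
            ((q : ℕ) : 𝓞 K) ∈ v.asIdeal → ¬ EqualAt v x y z) ∧
          divDeg q x y z = divDeg p x y z ∧ divDeg q y z x = divDeg p y z x ∧
          divDeg q z x y = divDeg p z x y)) ∧
      -- (3)
      (∀ r : ℕ, Aux p r → Fine p r x y z → eqDeg q x y z = eqDeg r x y z ∧
        divDeg q x y z = divDeg r x y z ∧ divDeg q y z x = divDeg r y z x ∧
        divDeg q z x y = divDeg r z x y)) := by
  obtain ⟨hq1, hqp, hW⟩ := hq
  obtain ⟨k, rfl⟩ := hn
  have hk : k ≠ 0 := by
    rintro rfl
    rw [mul_zero, pow_zero, pow_zero, pow_zero] at h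
    norm_num at h
  have hodd : Odd p := hp.odd_of_ne_two (by omega)
  have hp0 := hp.ne_zero
  have ha : x ^ k ≠ 0 := pow_ne_zero k hx
  have hb : y ^ k ≠ 0 := pow_ne_zero k hy
  have hc : -z ^ k ≠ 0 := neg_ne_zero.2 (pow_ne_zero k hz)
  have hF : (x ^ k) ^ p + (y ^ k) ^ p + (-z ^ k) ^ p = 0 := by
    rw [hodd.neg_pow, ← pow_mul, ← pow_mul, ← pow_mul, mul_comm k p, h]
    ring
  have hF2 : (y ^ k) ^ p + (-z ^ k) ^ p + (x ^ k) ^ p = 0 := by linear_combination hF
  have hF3 : (-z ^ k) ^ p + (x ^ k) ^ p + (y ^ k) ^ p = 0 := by linear_combination hF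
  have d1 : ∀ l : ℕ, U549.FW.share l (x ^ k) (y ^ k) (-z ^ k) = divDeg l x y z := by
    intro l
    refine finsum_congr fun v => finsum_congr_Prop (propext ?_) fun _ => rfl
    exact and_congr_right fun _ => (div_pow hk v x y z).1
  have d2 : ∀ l : ℕ, U549.FW.share l (y ^ k) (-z ^ k) (x ^ k) = divDeg l y z x := by
    intro l
    refine finsum_congr fun v => finsum_congr_Prop (propext ?_) fun _ => rfl
    exact and_congr_right fun _ => (div_pow hk v x y z).2.1
  have d3 : ∀ l : ℕ, U549.FW.share l (-z ^ k) (x ^ k) (y ^ k) = divDeg l z x y := by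
    intro l
    refine finsum_congr fun v => finsum_congr_Prop (propext ?_) fun _ => rfl
    exact and_congr_right fun _ => (div_pow hk v x y z).2.2.1
  have d4 : ∀ l : ℕ, U549.FW.evenShare l (x ^ k) (y ^ k) (-z ^ k) = eqDeg l x y z := by
    intro l
    refine finsum_congr fun v => finsum_congr_Prop (propext ?_) fun _ => rfl
    exact and_congr_right fun _ => (div_pow hk v x y z).2.2.2
  have fine1 : ∀ l : ℕ, Fine p l x y z → Fine p l (x ^ k) (y ^ k) (-z ^ k) := by
    intro l hl
    rcases hl with hl | hl
    · exact Or.inl hl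
    · refine Or.inr fun v hv => ?_
      rw [(div_pow hk v x y z).2.2.2]
      exact hl v hv
  have rotE : ∀ (v : HeightOneSpectrum (𝓞 K)) {a b c : K}, EqualAt v b c a → EqualAt v a b c :=
    fun v {a b c} h => ⟨(h.1.trans h.2).symm, h.1⟩
  have fineR : ∀ (l : ℕ) {a b c : K}, Fine p l a b c → Fine p l b c a := by
    intro l a b c hl
    rcases hl with hl | hl
    · exact Or.inl hl
    · exact Or.inr fun v hv => (hl v hv).imp_right fun h1 => ⟨fun h2 => h1.1 (rotE v h2), h1.2⟩
  refine ⟨⟨fun hd => ?_, fun hd => ?_, fun hd => ?_⟩, fun hf => ⟨?_, fun r hr hfr => ?_⟩⟩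
  · intro v hv
    rw [← (div_pow hk v x y z).1]
    exact U549.FW.quad_furt hK hp h5 ha hb hc hF hq1 hqp hW
      (fun w hw => (div_pow hk w x y z).1.2 (hd w hw)) v hv
  · intro v hv
    rw [← (div_pow hk v x y z).2.1]
    exact U549.FW.quad_furt hK hp h5 hb hc ha hF2 hq1 hqp hW
      (fun w hw => (div_pow hk w x y z).2.1.2 (hd w hw)) v hv
  · intro v hv
    rw [← (div_pow hk v x y z).2.2.1]
    exact U549.FW.quad_furt hK hp h5 hc ha hb hF3 hq1 hqp hW
      (fun w hw => (div_pow hk w x y z).2.2.1.2 (hd w hw)) v hv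
  · have f1 := fine1 q hf
    have h1 := U549.FW.quad_dich hK hp h5 ha hb hc hF hq1 hqp hW (f1.good hK h5)
      ((fineR q f1).good hK h5) ((fineR q (fineR q f1)).good hK h5)
    rw [d4, d4, d1, d1, d2, d2, d3, d3] at h1
    rcases h1 with h1 | ⟨h1, h2, h3⟩
    · left
      intro v hv
      have k1 := U549.FW.part_K (K := K) hp hp0 ha hb hc hF
      rw [d1, d2, d3, d4, h1, hK] at k1
      rw [← (div_pow hk v x y z).2.2.2]
      rcases U549.FW.four hp hp0 ha hb hc hF v hv with h2 | h2 | h2 | h2
      · exact h2
      · have h3 : 0 < U549.FW.share p (x ^ k) (y ^ k) (-z ^ k) := U549.FW.deg_pos hp _ v hv h2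
        rw [d1] at h3
        omega
      · have h3 : 0 < U549.FW.share p (y ^ k) (-z ^ k) (x ^ k) := U549.FW.deg_pos hp _ v hv h2
        rw [d2] at h3
        omega
      · have h3 : 0 < U549.FW.share p (-z ^ k) (x ^ k) (y ^ k) := U549.FW.deg_pos hp _ v hv h2
        rw [d3] at h3
        omega
    · right
      refine ⟨fun v hv he => ?_, h3⟩
      rw [← (div_pow hk v x y z).2.2.2] at he
      rcases hv with hv | hv
      · have h4 : 0 < U549.FW.evenShare p (x ^ k) (y ^ k) (-z ^ k) :=
          U549.FW.deg_pos hp _ v hv he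
        rw [d4] at h4
        omega
      · have h4 : 0 < U549.FW.evenShare q (x ^ k) (y ^ k) (-z ^ k) :=
          U549.FW.deg_pos hq1 _ v hv he
        rw [d4] at h4
        omega
  · have f1 := fine1 q hf
    have f2 := fine1 r hfr
    have m1 := U549.FW.main_two hp ha hb hc hF (by omega) (by omega) hq1 hqp hW (f1.good hK h5)
      hr.1 hr.2.1 hr.2.2 (f2.good hK h5)
    have m2 := U549.FW.main_two hp hb hc ha hF2 (by omega) (by omega) hq1 hqp hW
      ((fineR q f1).good hK h5) hr.1 hr.2.1 hr.2.2 ((fineR r f2).good hK h5)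
    have k1 := U549.FW.part_K (K := K) hq1 hp0 ha hb hc hF
    have k2 := U549.FW.part_K (K := K) hr.1 hp0 ha hb hc hF
    rw [d1, d2, d1, d2] at m1
    rw [d2, d3, d2, d3] at m2
    rw [d1, d2, d3, d4, hK] at k1 k2
    omega

end Pool.Agent.Results.MP_50a406_nt.FurtwaenglerQuadratic
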