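import Pool.Agent.U549.FW.Fst4

/-!
# The criterion of Mirimanoff over quadratic fields

Let `K` be a quadratic field of discriminant `d`, `p ≥ 11` a prime, `n` a multiple of `p`, and
`x ^ n + y ^ n = z ^ n` with nonzero `x`, `y`, `z` in `K` whose valuations are equal at all primes
above `p` (the first case). Let `V (P, Q)` be the Lucas sequence with `V_0 = 2`, `V_1 = P` and
`V_(n + 2) = P V_(n + 1) - Q V_n`. We prove:

(1) Let `q ≠ p` be a prime number for which `q ^ (p - 1)` is not `1` modulo `p ^ 2`. Suppose that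
    `q = 2`, or that `q = 3` is not inert in `K`, or that every prime of `K` above `q` divides one of
    `x`, `y`, `z` (to a higher power than the others) and has a norm which is not `1` modulo `p`. Then
    (a) the valuations of `x`, `y`, `z` are equal at all primes above `q`, and `- 3 d` is a nonzero
    square modulo `p`; or
    (b) they are equal at exactly one of two primes above `q`, `p` divides the numerators of the
    Bernoulli numbers with the indices `p - 3`, `p - 5` and (if `p ≥ 19`) `p - 7`, and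
    `V_p (1, 2) = 1` modulo `p ^ 2`, and `- 7 d` is a nonzero square modulo `p`; or
    (c) the two primes above `q` divide different ones of `x`, `y`, `z`, and the same is true for the
    Bernoulli numbers, and `V_p (3, 6) = 3 ^ p` modulo `p ^ 2`, and `- 15 d` is a nonzero square
    modulo `p`.
(2) If two splits in `K` and `2 ^ (p - 1)` is not `1` modulo `p ^ 2`, then (c) is true for `q = 2`.
(3) If three ramifies in `K` and `3 ^ (p - 1)` is not `1` modulo `p ^ 2`, then (a) is true for
    `q = 3`.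
(4) If two splits and three ramifies in `K`, then `2 ^ (p - 1)` or `3 ^ (p - 1)` is `1` modulo
    `p ^ 2`. (So for all other `p ≥ 11` there is no solution of this kind.)

Over the rational numbers the criteria for `2` and `3` are due to Wieferich and Mirimanoff, and the
one for the divisors `q` of `x y z` to Furtwängler. There is no condition on class numbers and
units. The starting theorem `WieferichQuadratic` is the case `q = 2` without the conditions on the
indices `p - 5`, `p - 7` and on `V_p`. (Numerically, `V_p (1, 2) = 1` modulo `p ^ 2` for three primes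
`p` with `11 ≤ p < 2 * 10 ^ 7`, and `V_p (3, 6) = 3 ^ p` for three; for all of them the numerator of the
Bernoulli number with the index `p - 3` is known to be prime to `p`.)

Proof. Let `X, Y, Z` be multiples of `x ^ (n / p)`, `y ^ (n / p)`, `- z ^ (n / p)` prime to `p`, and
`A, B, C` their norms. The trace formula of `FurtwaenglerTheorem` (under the problem on asymptotic
Fermat) says that the trace of `(X - Y) / Z` is `D (x) - D (y)` modulo `p`, where `D (x)` is the sum
of the local degrees of the primes above `q` which divide `x`; so `(D (x) - D (y)) C = 2 (B - A)`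
modulo `p`, and the same for the other pairs. Up to order `A : B : C` is `1 : 1 : 1` or `1 : 2 : 2`
or `2 : 2 : 3`, and `A ^ 2 + B ^ 2 + C ^ 2 - 2 A B - 2 B C - 2 C A` is a square times `d` modulo `p`.
The relations of all Jacobi sums (starting files) for the polynomial `N (X + T Y)` modulo `p`, and
logarithmic differentiation, give that the sum of the inverse powers of order `k` over the half
systems, which is essentially the Bernoulli number with the index `p - k`, times the logarithmic
derivative of order `k` at `T = 1` is zero modulo `p`; these derivatives are computed for `k = 3`,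
`5`, `7`. In each case two of the norms are equal modulo `p`; if `A = B`, then the square of
`w = (X - Y) / Z` is a rational number modulo `p`, and `(1 + w) ^ p + (1 - w) ^ p`, which is `2 ^ p`
modulo `p ^ 2`, is a value of a Lucas sequence.
-/

set_option autoImplicit false

namespace Pool.Agent.Results.MP_50a406_nt.MirimanoffQuadratic

open NumberField IsDedekindDomain

/-- `q` is a prime number other than `p`, and `q ^ (p - 1)` is not `1` modulo `p ^ 2` -/
def Aux (p q : ℕ) : Prop := q.Prime ∧ q ≠ p ∧ ¬ p ^ 2 ∣ q ^ (p - 1) - 1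

/-- `a` is a nonzero square modulo `p` -/
def SqMod (p : ℕ) (a : ℤ) : Prop := ¬ (p : ℤ) ∣ a ∧ ∃ s : ℤ, (p : ℤ) ∣ s ^ 2 - a

/-- `p` divides the numerators of the Bernoulli numbers with the indices `p - 3`, `p - 5`, and
`p - 7` if `p ≥ 19` -/
def Irr (p : ℕ) : Prop :=
  (p : ℤ) ∣ (bernoulli (p - 3)).num ∧ (p : ℤ) ∣ (bernoulli (p - 5)).num ∧
    (19 ≤ p → (p : ℤ) ∣ (bernoulli (p - 7)).num)

/-- the Lucas sequence `V (P, Q)` -/
def lucasV (P Q : ℤ) : ℕ → ℤ
  | 0 => 2
  | 1 => P
  | n + 2 => P * lucasV P Q (n + 1) - Q * lucasV P Q n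

theorem lucasV_eq (P Q : ℤ) (n : ℕ) : U549.FW.lucV P Q n = lucasV P Q n ∧
    U549.FW.lucV P Q (n + 1) = lucasV P Q (n + 1) := by
  induction n with
  | zero => exact ⟨rfl, rfl⟩
  | succ n ih =>
    refine ⟨ih.2, ?_⟩
    change P * U549.FW.lucV P Q (n + 1) - Q * U549.FW.lucV P Q n =
      P * lucasV P Q (n + 1) - Q * lucasV P Q n
    rw [ih.1, ih.2]

section

variable {K : Type} [Field K] [NumberField K]

/-- the local degree of `v` over `l`, the product of the ramification index and the residue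
degree -/
noncomputable def locDeg (l : ℕ) (v : HeightOneSpectrum (𝓞 K)) : ℕ :=
  Ideal.ramificationIdx' (Ideal.span {(l : ℤ)}) v.asIdeal *
    Ideal.inertiaDeg' (Ideal.span {(l : ℤ)}) v.asIdeal

/-- `x`, `y` and `z` have the same valuation at `v` -/
def EqualAt (v : HeightOneSpectrum (𝓞 K)) (x y z : K) : Prop :=
  v.valuation K x = v.valuation K y ∧ v.valuation K y = v.valuation K z

/-- `v` divides `x` to a higher power than `y` and `z` (its valuation, in multiplicative notation, is
smaller) -/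
def Divides (v : HeightOneSpectrum (𝓞 K)) (x y z : K) : Prop :=
  v.valuation K x < v.valuation K y ∧ v.valuation K x < v.valuation K z

/-- the sum of the local degrees of the primes above `l` which divide `x` to a higher power than `y`
and `z` -/
noncomputable def divDeg (l : ℕ) (x y z : K) : ℕ :=
  ∑ᶠ (v : HeightOneSpectrum (𝓞 K)) (_ : ((l : ℕ) : 𝓞 K) ∈ v.asIdeal ∧ Divides v x y z), locDeg l v

/-- the sum of the local degrees of the primes above `l` at which `x`, `y`, `z` have the same
valuation -/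
noncomputable def eqDeg (l : ℕ) (x y z : K) : ℕ :=
  ∑ᶠ (v : HeightOneSpectrum (𝓞 K)) (_ : ((l : ℕ) : 𝓞 K) ∈ v.asIdeal ∧ EqualAt v x y z), locDeg l v

/-- `q` is two, or `q` is three and not inert in `K`, or every prime above `q` divides one of `x`,
`y`, `z` (the valuations are not equal) and has a norm which is not `1` modulo `p` -/
def Fine (p q : ℕ) (x y z : K) : Prop :=
  q = 2 ∨ (q = 3 ∧ NumberField.discr K % 3 ≠ 2) ∨
    ∀ v : HeightOneSpectrum (𝓞 K), ((q : ℕ) : 𝓞 K) ∈ v.asIdeal →
      ¬ EqualAt v x y z ∧ ¬ p ∣ Ideal.absNorm v.asIdeal - 1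

/-- case (a): the valuations are equal at all primes above `q` -/
def CaseA (p q : ℕ) (x y z : K) : Prop :=
  eqDeg q x y z = 2 ∧ SqMod p (-3 * NumberField.discr K)

/-- case (b): the valuations are equal at exactly one of two primes above `q` -/
def CaseB (p q : ℕ) (x y z : K) : Prop :=
  eqDeg q x y z = 1 ∧ Irr p ∧ (p : ℤ) ^ 2 ∣ lucasV 1 2 p - 1 ∧
    SqMod p (-7 * NumberField.discr K)

/-- case (c): the two primes above `q` divide different ones of `x`, `y`, `z` -/
def CaseC (p q : ℕ) (x y z : K) : Prop :=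
  (eqDeg q x y z = 0 ∧ divDeg q x y z ≤ 1 ∧ divDeg q y z x ≤ 1 ∧ divDeg q z x y ≤ 1) ∧
    Irr p ∧ (p : ℤ) ^ 2 ∣ lucasV 3 6 p - 3 ^ p ∧ SqMod p (-15 * NumberField.discr K)

theorem lt_pow {k : ℕ} (hk : k ≠ 0) (v : HeightOneSpectrum (𝓞 K)) (x y : K) :
    v.valuation K (x ^ k) < v.valuation K (y ^ k) ↔ v.valuation K x < v.valuation K y := by
  rw [map_pow, map_pow]
  exact pow_lt_pow_iff_left₀ zero_le zero_le hk

theorem eq_pow {k : ℕ} (hk : k ≠ 0) (v : HeightOneSpectrum (𝓞 K)) (x y : K) :
    v.valuation K (x ^ k) = v.valuation K (y ^ k) ↔ v.valuation K x = v.valuation K y := by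
  rw [map_pow, map_pow]
  exact pow_left_inj₀ zero_le zero_le hk

theorem div_pow {k : ℕ} (hk : k ≠ 0) (v : HeightOneSpectrum (𝓞 K)) (x y z : K) :
    (Divides v (x ^ k) (y ^ k) (-z ^ k) ↔ Divides v x y z) ∧
    (Divides v (y ^ k) (-z ^ k) (x ^ k) ↔ Divides v y z x) ∧
    (Divides v (-z ^ k) (x ^ k) (y ^ k) ↔ Divides v z x y) ∧
    (EqualAt v (x ^ k) (y ^ k) (-z ^ k) ↔ EqualAt v x y z) := by
  unfold Divides EqualAt
  simp only [Valuation.map_neg, lt_pow hk, eq_pow hk]
  exact ⟨trivial, trivial, trivial, trivial⟩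

theorem Fine.good (hK : Module.finrank ℚ K = 2) {p q : ℕ} (hp5 : 5 ≤ p) {a b c : K}
    (h : Fine p q a b c) : U549.FW.Good p q a b c := by
  rcases h with h | ⟨h, hd⟩ | h
  · subst h
    exact U549.FW.good_small hp5 a b c fun v hv => U549.FW.quad_two hK v hv
  · subst h
    exact U549.FW.good_small hp5 a b c fun v hv => U549.FW.three_norm hK hd v hv
  · exact fun v hv => ⟨fun _ => (h v hv).2, fun h2 => absurd h2 (h v hv).1⟩

end

theorem sqMod_of {p : ℕ} [Fact p.Prime] {k d : ℤ}
    (h : ∃ s : ZMod p, s ≠ 0 ∧ s ^ 2 = (k : ZMod p) * (d : ZMod p)) : SqMod p (k * d) := by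
  obtain ⟨s, hs, hsd⟩ := h
  obtain ⟨t, rfl⟩ := ZMod.intCast_surjective s
  constructor
  · intro hd
    have h1 := (ZMod.intCast_zmod_eq_zero_iff_dvd _ p).2 hd
    push_cast at h1
    rw [h1] at hsd
    exact hs (pow_eq_zero_iff two_ne_zero |>.1 hsd)
  · refine ⟨t, (ZMod.intCast_zmod_eq_zero_iff_dvd _ p).1 ?_⟩
    push_cast
    rw [hsd, sub_self]

theorem num_of {p : ℕ} [Fact p.Prime] {j : ℕ} (h : ¬ Y546.WQ.Reg p j) (h1 : Odd j) (h2 : 3 ≤ j)
    (h3 : j + 2 ≤ p) : (p : ℤ) ∣ (bernoulli (p - j)).num := by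
  have h5 : p - j ∈ Y546.WQ.irr p := by
    by_contra hcon
    exact h (Y546.WQ.reg_of Y61.WQ.mainBER j h1 h2 h3 hcon)
  unfold Y546.WQ.irr at h5
  exact (Finset.mem_filter.1 h5).2.2.2.2

theorem irr_of {p : ℕ} [Fact p.Prime] (h11 : 11 ≤ p) (h : U549.FW.NR p) : Irr p :=
  ⟨num_of h.1 (by decide) (by norm_num) (by omega),
    num_of h.2.1 (by decide) (by norm_num) (by omega),
    fun h19 => num_of (h.2.2 h19) (by decide) (by norm_num) (by omega)⟩

theorem result (K : Type) [Field K] [NumberField K] (hK : Module.finrank ℚ K = 2)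
    (p n : ℕ) (hp : p.Prime) (h11 : 11 ≤ p) (hn : p ∣ n)
    (x y z : K) (h : x ^ n + y ^ n = z ^ n) (hx : x ≠ 0) (hy : y ≠ 0) (hz : z ≠ 0)
    -- the first case
    (hfc : ∀ v : HeightOneSpectrum (𝓞 K), ((p : ℕ) : 𝓞 K) ∈ v.asIdeal → EqualAt v x y z) :
    -- (1)
    (∀ q : ℕ, Aux p q → Fine p q x y z → CaseA p q x y z ∨ CaseB p q x y z ∨ CaseC p q x y z) ∧
    -- (2)
    (Aux p 2 → NumberField.discr K % 8 = 1 → CaseC p 2 x y z) ∧
    -- (3)
    (Aux p 3 → NumberField.discr K % 3 = 0 → CaseA p 3 x y z) ∧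
    -- (4)
    (NumberField.discr K % 8 = 1 → NumberField.discr K % 3 = 0 → ¬ Aux p 2 ∨ ¬ Aux p 3) := by
  have hfp : Fact p.Prime := ⟨hp⟩
  obtain ⟨k, rfl⟩ := hn
  have hk : k ≠ 0 := by
    rintro rfl
    rw [mul_zero, pow_zero, pow_zero, pow_zero] at h
    norm_num at h
  have hodd : Odd p := hp.odd_of_ne_two (by omega)
  have hp0 := hp.ne_zero
  have ha : x ^ k ≠ 0 := pow_ne_zero k hx
  have hb : y ^ k ≠ 0 := pow_ne_zero k hy
  have hc : -z ^ k ≠ 0 := neg_ne_zero.2 (pow_ne_zero k hz)
  have hF : (x ^ k) ^ p + (y ^ k) ^ p + (-z ^ k) ^ p = 0 := by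
    rw [hodd.neg_pow, ← pow_mul, ← pow_mul, ← pow_mul, mul_comm k p, h]
    ring
  have hF2 : (y ^ k) ^ p + (-z ^ k) ^ p + (x ^ k) ^ p = 0 := by linear_combination hF
  have d1 : ∀ l : ℕ, U549.FW.share l (x ^ k) (y ^ k) (-z ^ k) = divDeg l x y z := by
    intro l
    refine finsum_congr fun v => finsum_congr_Prop (propext ?_) fun _ => rfl
    exact and_congr_right fun _ => (div_pow hk v x y z).1
  have d2 : ∀ l : ℕ, U549.FW.share l (y ^ k) (-z ^ k) (x ^ k) = divDeg l y z x := by
    intro l
    refine finsum_congr fun v => finsum_congr_Prop (propext ?_) fun _ => rfl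
    exact and_congr_right fun _ => (div_pow hk v x y z).2.1
  have d3 : ∀ l : ℕ, U549.FW.share l (-z ^ k) (x ^ k) (y ^ k) = divDeg l z x y := by
    intro l
    refine finsum_congr fun v => finsum_congr_Prop (propext ?_) fun _ => rfl
    exact and_congr_right fun _ => (div_pow hk v x y z).2.2.1
  have d4 : ∀ l : ℕ, U549.FW.evenShare l (x ^ k) (y ^ k) (-z ^ k) = eqDeg l x y z := by
    intro l
    refine finsum_congr fun v => finsum_congr_Prop (propext ?_) fun _ => rfl
    exact and_congr_right fun _ => (div_pow hk v x y z).2.2.2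
  have fine1 : ∀ l : ℕ, Fine p l x y z → Fine p l (x ^ k) (y ^ k) (-z ^ k) := by
    intro l hl
    rcases hl with hl | hl | hl
    · exact Or.inl hl
    · exact Or.inr (Or.inl hl)
    · refine Or.inr (Or.inr fun v hv => ?_)
      rw [(div_pow hk v x y z).2.2.2]
      exact hl v hv
  have rotE : ∀ (v : HeightOneSpectrum (𝓞 K)) {a b c : K}, EqualAt v b c a → EqualAt v a b c :=
    fun v {a b c} h => ⟨(h.1.trans h.2).symm, h.1⟩
  have fineR : ∀ (l : ℕ) {a b c : K}, Fine p l a b c → Fine p l b c a := by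
    intro l a b c hl
    rcases hl with hl | hl | hl
    · exact Or.inl hl
    · exact Or.inr (Or.inl hl)
    · exact Or.inr (Or.inr fun v hv => ⟨fun h2 => (hl v hv).1 (rotE v h2), (hl v hv).2⟩)
  have hE : ∀ v : HeightOneSpectrum (𝓞 K), ((p : ℕ) : 𝓞 K) ∈ v.asIdeal →
      EqualAt v (x ^ k) (y ^ k) (-z ^ k) := fun v hv => (div_pow hk v x y z).2.2.2.2 (hfc v hv)
  have l1 := (lucasV_eq 1 2 p).1
  have l2 := (lucasV_eq 3 6 p).1
  have P1 : ∀ q : ℕ, Aux p q → Fine p q x y z →
      CaseA p q x y z ∨ CaseB p q x y z ∨ CaseC p q x y z := by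
    rintro q ⟨hq1, hqp, hW⟩ hf
    have f1 := fine1 q hf
    have h1 := U549.FW.quad_first hK h11 ha hb hc hF hE hq1 hqp hW (f1.good hK (by omega))
      ((fineR q f1).good hK (by omega)) ((fineR q (fineR q f1)).good hK (by omega))
    rw [d4, d1, d2, d3, l1, l2] at h1
    rcases h1 with ⟨h1, s, hs, hsd⟩ | ⟨h1, h2, h3, s, hs, hsd⟩ | ⟨h1, h2, h3, s, hs, hsd⟩
    · exact Or.inl ⟨h1, sqMod_of ⟨s, hs, by rw [hsd]; push_cast; ring⟩⟩
    · exact Or.inr (Or.inl ⟨h1, irr_of h11 h2, h3,
        sqMod_of ⟨s, hs, by rw [hsd]; push_cast; ring⟩⟩)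
    · exact Or.inr (Or.inr ⟨h1, irr_of h11 h2, h3,
        sqMod_of ⟨s, hs, by rw [hsd]; push_cast; ring⟩⟩)
  have E2 : NumberField.discr K % 8 = 1 → eqDeg 2 x y z = 0 := by
    intro hd
    rw [← d4]
    exact U549.FW.deg_zero 2 _ fun v hv hv' => U549.FW.two_ne_eq hK hd hp0 ha hb hc hF v hv hv'
  have F3 : NumberField.discr K % 3 ≠ 2 → Fine p 3 x y z := fun hd => Or.inr (Or.inl ⟨rfl, hd⟩)
  have E3 : Aux p 3 → NumberField.discr K % 3 = 0 → CaseA p 3 x y z := by
    intro h3 hd
    have h1 := U549.FW.one_class Nat.prime_three hp0 ha hb hc hF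
      (fun v w hv hw => U549.FW.three_unique hK hd v w hv hw)
    have h2 := U549.FW.part_K (K := K) Nat.prime_three hp0 ha hb hc hF
    rw [d1, d2, d3, d4, hK] at h1 h2
    rcases P1 3 h3 (F3 (by omega)) with h4 | ⟨h4, -⟩ | ⟨⟨h4, h5, h6, h7⟩, -⟩
    · exact h4
    · omega
    · omega
  refine ⟨P1, fun h2 hd => ?_, E3, fun hd hd3 => ?_⟩
  · have e2 := E2 hd
    rcases P1 2 h2 (Or.inl rfl) with h4 | h4 | h4
    · have := h4.1
      omega
    · have := h4.1
      omega
    · exact h4
  · by_contra hcon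
    push Not at hcon
    obtain ⟨h2, h3⟩ := hcon
    have e2 := E2 hd
    have e3 := (E3 h3 hd3).1
    have f2 := fine1 2 (Or.inl rfl)
    have f3 := fine1 3 (F3 (by omega))
    have m1 := U549.FW.main_two hp ha hb hc hF (by omega) (by omega) h2.1 h2.2.1 h2.2.2
      (f2.good hK (by omega)) h3.1 h3.2.1 h3.2.2 (f3.good hK (by omega))
    have m2 := U549.FW.main_two hp hb hc ha hF2 (by omega) (by omega) h2.1 h2.2.1 h2.2.2
      ((fineR 2 f2).good hK (by omega)) h3.1 h3.2.1 h3.2.2 ((fineR 3 f3).good hK (by omega))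
    have k1 := U549.FW.part_K (K := K) Nat.prime_two hp0 ha hb hc hF
    have k2 := U549.FW.part_K (K := K) Nat.prime_three hp0 ha hb hc hF
    rw [d1, d2, d1, d2] at m1
    rw [d2, d3, d2, d3] at m2
    rw [d1, d2, d3, d4, hK] at k1 k2
    omega

end Pool.Agent.Results.MP_50a406_nt.MirimanoffQuadratic
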