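import Pool.Agent.U549.LF.Quad

/-!
# Fermat's equation over quadratic fields: there is no mixed case

Let `K` be a quadratic field, let `p ≥ 7` be a prime and `n` a multiple of `p`, and let
`x ^ n + y ^ n = z ^ n` with nonzero `x`, `y`, `z` in `K`. If `p` splits in `K`, the valuations of
`x`, `y`, `z` at one of the two primes above `p` may be equal, and those at the other one not. We
show that this does not happen if `p` does not divide the Bernoulli number with index `p - 3`, or if
`(i + 1) (i + 2) + 4 ≤ p`, where `i` is the index of irregularity of `p`. So under this condition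
(A) the valuations of `x`, `y`, `z` are not all equal at any prime `v` above `p`, or
(B) they are equal at all primes above `p` (the first case).
Moreover, in (B), if also `p` does not divide the Bernoulli number with index `p - 5`, or if
`2 (i + 1) (i + 2) + 3 ≤ p`, then the solution is congruent to the trivial solution `(1, ω, ω ^ 2)`:
`x ^ (n / p) / y ^ (n / p)` is a primitive cube root of unity modulo every prime `v` above `p`; and
`p = 1` modulo `3` splits or `p = 2` modulo `3` is inert in `K`. Finally, if in (B) `p ≥ 11`, then six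
divides `e / gcd (e, n)`, where `e` is the multiple of `6` among `p - 1` and `p + 1` (under the
condition of the second statement, or if `p` does not divide the Bernoulli number with index `p - 3`
and `2 ^ (p - 1)` is not `1` modulo `p ^ 2`).

So (A) holds, that is, there is no solution with equal valuations at any prime above `p`, if `p` is
ramified in `K`, or `p = 1` modulo `3` is inert, or `p = 2` modulo `3` splits in `K` (and `p` satisfies
the second condition); or if `n` is divisible by the largest power of two, or of three, that divides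
`e` (and `p ≥ 11` satisfies one of the two last conditions). The earlier results over quadratic fields (for instance
`AllQuadraticFields`) only exclude solutions with equal valuations at all primes above `p`.

Proof. See `EqualValuations` (under the problem on asymptotic Fermat) for the theorem on arbitrary
number fields which is used: the norm polynomial `N (X + T Y)` modulo `p` is the product of a power
of `T`, a power of `T - 1` and a palindromic polynomial whose degree is the sum of the local degrees
at the primes with equal valuations; so this sum is `r + c` with `r` divisible by three and `c` even,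
where `c` belongs to the primes at which the solution is congruent to `(1, ω, ω ^ 2)`. In the mixed
case it is one, and only the first Bernoulli number is needed. If it is two then `r = 0`.
-/

set_option autoImplicit false

namespace Pool.Agent.Results.MP_50a406_nt.NoMixedCase

open NumberField IsDedekindDomain

/-- The even numbers `k` with `2 ≤ k ≤ p - 3` for which `p` divides the numerator of the Bernoulli
number with index `k`. Their number is the index of irregularity of `p`. -/
def Irregular (p : ℕ) : Finset ℕ :=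
  (Finset.range p).filter fun k => Even k ∧ 2 ≤ k ∧ k + 3 ≤ p ∧ (p : ℤ) ∣ (bernoulli k).num

/-- the multiple of six among `p - 1` and `p + 1` (`p > 3` prime) -/
def six (p : ℕ) : ℕ := if p % 3 = 1 then p - 1 else p + 1

/-- `p` divides neither the Bernoulli number with index `p - 3` nor that with index `p - 5`, or the
index of irregularity is small -/
def Reg2 (p : ℕ) : Prop :=
  (¬ (p : ℤ) ∣ (bernoulli (p - 3)).num ∧ ¬ (p : ℤ) ∣ (bernoulli (p - 5)).num) ∨
    2 * (((Irregular p).card + 1) * ((Irregular p).card + 2)) + 3 ≤ p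

section

variable {K : Type} [Field K] [NumberField K]

/-- `x`, `y` and `z` have the same valuation at `v` -/
def EqualAt (v : HeightOneSpectrum (𝓞 K)) (x y z : K) : Prop :=
  v.valuation K x = v.valuation K y ∧ v.valuation K y = v.valuation K z

/-- `x ^ k / y ^ k` is a primitive cube root of unity modulo `v` (the valuations of `x` and `y` being
equal and `v` not lying above `3`); in multiplicative notation, the value of
`x ^ (2 k) + x ^ k y ^ k + y ^ (2 k)` is smaller than that of `y ^ (2 k)` -/
def CubeAt (v : HeightOneSpectrum (𝓞 K)) (k : ℕ) (x y : K) : Prop :=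
  v.valuation K ((x ^ k) ^ 2 + x ^ k * y ^ k + (y ^ k) ^ 2) < v.valuation K ((y ^ k) ^ 2)

end

theorem result (K : Type) [Field K] [NumberField K] (hK : Module.finrank ℚ K = 2)
    (p n : ℕ) (hp : p.Prime) (h7 : 7 ≤ p) (hn : p ∣ n)
    (hB : ¬ (p : ℤ) ∣ (bernoulli (p - 3)).num ∨
      ((Irregular p).card + 1) * ((Irregular p).card + 2) + 4 ≤ p)
    (x y z : K) (h : x ^ n + y ^ n = z ^ n) (hx : x ≠ 0) (hy : y ≠ 0) (hz : z ≠ 0) :
    -- (A)
    (∀ v : HeightOneSpectrum (𝓞 K), ((p : ℕ) : 𝓞 K) ∈ v.asIdeal → ¬ EqualAt v x y z) ∨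
    -- (B)
    ((∀ v : HeightOneSpectrum (𝓞 K), ((p : ℕ) : 𝓞 K) ∈ v.asIdeal → EqualAt v x y z) ∧
      (Reg2 p →
        (∀ v : HeightOneSpectrum (𝓞 K), ((p : ℕ) : 𝓞 K) ∈ v.asIdeal → CubeAt v (n / p) x y) ∧
        ((p % 3 = 1 ∧ ∃ v w : HeightOneSpectrum (𝓞 K), v ≠ w ∧ ((p : ℕ) : 𝓞 K) ∈ v.asIdeal ∧
          ((p : ℕ) : 𝓞 K) ∈ w.asIdeal) ∨
        (p % 3 = 2 ∧ ∀ v : HeightOneSpectrum (𝓞 K), ((p : ℕ) : 𝓞 K) ∈ v.asIdeal →
          Ideal.absNorm v.asIdeal = p ^ 2))) ∧
      (11 ≤ p → (Reg2 p ∨ (¬ (p : ℤ) ∣ (bernoulli (p - 3)).num ∧ ¬ p ^ 2 ∣ 2 ^ (p - 1) - 1)) →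
        6 ∣ six p / Nat.gcd (six p) n)) := by
  obtain ⟨k, rfl⟩ := hn
  rw [Nat.mul_div_cancel_left k hp.pos]
  have hk : k ≠ 0 := by
    rintro rfl
    rw [mul_zero, pow_zero, pow_zero, pow_zero] at h
    norm_num at h
  have hodd : Odd p := hp.odd_of_ne_two (by omega)
  have hirr : ∀ j : ℕ, ¬ (p : ℤ) ∣ (bernoulli j).num → j ∉ Y546.WQ.irr p := by
    intro j hj hk
    unfold Y546.WQ.irr at hk
    exact hj (Finset.mem_filter.1 hk).2.2.2.2
  have hmem : ∀ j ∈ Y546.WQ.irr p, Even j ∧ j + 3 ≤ p := by
    intro j hj
    have hj' := (Finset.mem_filter.1 (by unfold Y546.WQ.irr at hj; exact hj)).2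
    exact ⟨hj'.1, hj'.2.2.1⟩
  have hB1 : U549.LF.BernS p 2 1 := by
    rcases hB with hB | hB
    · refine Or.inl ⟨by omega, fun j hj => ?_⟩
      have h3 := hirr _ hB
      have h3' : j ≠ p - 3 := fun h => h3 (h ▸ hj)
      obtain ⟨⟨a, ha⟩, h3k⟩ := hmem j hj
      obtain ⟨b, hb⟩ := hodd
      omega
    · refine Or.inr ?_
      have e : (Irregular p).card = (Y546.WQ.irr p).card := rfl
      rw [e] at hB
      omega
  have hB2 : Reg2 p → (7 ≤ p ∧ ∀ j ∈ Y546.WQ.irr p, j + 5 < p) ∨
      2 * (((Y546.WQ.irr p).card + 1) * ((Y546.WQ.irr p).card + 2)) + 3 ≤ p := by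
    rintro (⟨h1, h2⟩ | h1)
    · refine Or.inl ⟨h7, fun j hj => ?_⟩
      have h3 := hirr _ h1
      have h5 := hirr _ h2
      have h3' : j ≠ p - 3 := fun h => h3 (h ▸ hj)
      have h5' : j ≠ p - 5 := fun h => h5 (h ▸ hj)
      obtain ⟨⟨a, ha⟩, h3k⟩ := hmem j hj
      obtain ⟨b, hb⟩ := hodd
      omega
    · exact Or.inr h1
  by_cases hcon : ∀ v : HeightOneSpectrum (𝓞 K), ((p : ℕ) : 𝓞 K) ∈ v.asIdeal →
      ¬ EqualAt v x y z
  · exact Or.inl hcon
  push Not at hcon
  obtain ⟨v, hv, he⟩ := hcon
  obtain ⟨h1, h2⟩ := U549.LF.quad hp hK k hx hy hz h hB1 v hv he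
  refine Or.inr ⟨h1, fun h3 => ?_, fun h11 h3 => ?_⟩
  · apply h2
    rcases hB2 h3 with h4 | h4
    · exact Or.inl ⟨h4.1, fun j hj => by
        have := h4.2 j hj
        omega⟩
    · exact Or.inr (by omega)
  · apply U549.LF.quad_six hp hK hk hx hy hz h h11 _ h1
    rcases h3 with h3 | h3
    · left
      rcases hB2 h3 with h4 | h4
      · exact Or.inl ⟨h4.1, fun j hj => by
          have := h4.2 j hj
          omega⟩
      · exact Or.inr h4
    · exact Or.inr ⟨hirr _ h3.1, h3.2⟩

end Pool.Agent.Results.MP_50a406_nt.NoMixedCase
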